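import Pool.Agent.Helper87.TB.St
import Pool.Agent.Helper26.CovL.Num

/-! Module AD of project TB: sharpness up to a logarithm. -/

set_option autoImplicit false

noncomputable section

namespace Pool.Agent.Helper24.TB

open Finset Pool.Agent.Helper87.TB
open scoped Classical

/-- the product of the factors `1 - j / N` -/
theorem prod_eq (r N : ℕ) (hr : 1 ≤ r) (hrN : r ≤ N) :
    (∏ j ∈ range r, (1 - (j : ℝ) / N)) * (N : ℝ) ^ r = (r.factorial : ℝ) * (N.choose r : ℝ) := by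
  have hN : (N : ℝ) ≠ 0 := by
    have : 0 < N := by omega
    positivity
  have h1 : (N : ℝ) ^ r = ∏ _j ∈ range r, (N : ℝ) := by simp
  rw [h1, ← Finset.prod_mul_distrib]
  have h2 : ((N.descFactorial r : ℕ) : ℝ) = ∏ j ∈ range r, ((1 - (j : ℝ) / N) * N) := by
    rw [Nat.descFactorial_eq_prod_range, Nat.cast_prod]
    refine Finset.prod_congr rfl fun j hj => ?_
    have hj' : j ≤ N := by
      have := Finset.mem_range.mp hj
      omega
    rw [Nat.cast_sub hj']
    field_simp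
  rw [← h2, Nat.descFactorial_eq_factorial_mul_choose]
  push_cast
  rfl

theorem prod_nonneg' (r N : ℕ) (hrN : r ≤ N) : 0 ≤ ∏ j ∈ range r, (1 - (j : ℝ) / N) := by
  refine Finset.prod_nonneg fun j hj => ?_
  have hj' : j < N := by
    have := Finset.mem_range.mp hj
    omega
  have hN : (0 : ℝ) < N := by
    have : 0 < N := by omega
    positivity
  rw [sub_nonneg, div_le_one hN]
  exact_mod_cast hj'.le

/-- the choice of the codimension -/
theorem choose_c (C : ℕ) (hC : 1 ≤ C) : ∃ c : ℕ, (c : ℝ) * Real.log 2 * 2 ^ c < (C : ℝ) ∧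
    2 ^ c ≤ C ∧ (C : ℝ) ≤ 2 * Real.log (2 * (C : ℝ)) * 2 ^ c := by
  have hl : (0.69 : ℝ) < Real.log 2 := lt_trans (by norm_num) Real.log_two_gt_d9
  have hex : ∃ c : ℕ, (c : ℝ) * Real.log 2 * 2 ^ c < (C : ℝ) ∧
      ¬ (((c + 1 : ℕ) : ℝ) * Real.log 2 * 2 ^ (c + 1) < (C : ℝ)) := by
    by_contra hcon
    push Not at hcon
    have hall : ∀ c : ℕ, (c : ℝ) * Real.log 2 * 2 ^ c < (C : ℝ) := by
      intro c
      induction c with
      | zero =>
        have : (0 : ℝ) < C := by exact_mod_cast hC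
        simpa using this
      | succ n ih => exact hcon n ih
    have h1 := hall (C + 1)
    have h2 : (2 : ℝ) ≤ 2 ^ (C + 1) := by
      calc (2 : ℝ) = 2 ^ 1 := by norm_num
        _ ≤ 2 ^ (C + 1) := pow_le_pow_right₀ (by norm_num) (by omega)
    have h3 : (0 : ℝ) ≤ C := Nat.cast_nonneg C
    have h4 : ((C + 1 : ℕ) : ℝ) * Real.log 2 * 2 ≤ ((C + 1 : ℕ) : ℝ) * Real.log 2 * 2 ^ (C + 1) := by
      apply mul_le_mul_of_nonneg_left h2
      positivity
    have h5 : ((C + 1 : ℕ) : ℝ) * 0.69 * 2 ≤ ((C + 1 : ℕ) : ℝ) * Real.log 2 * 2 := by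
      apply mul_le_mul_of_nonneg_right _ (by norm_num)
      apply mul_le_mul_of_nonneg_left hl.le
      positivity
    push_cast at h1 h4 h5
    linarith
  obtain ⟨c, hc1, hc2⟩ := hex
  have h2c : 2 ^ c ≤ C := by
    rcases c with _ | _ | c
    · simpa using hC
    · have h1 : (1 : ℝ) < C := by
        have : ((0 + 1 : ℕ) : ℝ) * Real.log 2 * 2 ^ (0 + 1) = 2 * Real.log 2 := by
          push_cast
          ring
        rw [this] at hc1
        linarith
      have h2 : 1 < C := by exact_mod_cast h1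
      show 2 ^ (0 + 1) ≤ C
      omega
    · have h1 : (2 : ℝ) ^ (c + 1 + 1) ≤ ((c + 1 + 1 : ℕ) : ℝ) * Real.log 2 * 2 ^ (c + 1 + 1) := by
        have h3 : (1 : ℝ) ≤ ((c + 1 + 1 : ℕ) : ℝ) * Real.log 2 := by
          have h4 : (2 : ℝ) ≤ ((c + 1 + 1 : ℕ) : ℝ) := by
            push_cast
            have : (0 : ℝ) ≤ c := Nat.cast_nonneg c
            linarith
          nlinarith
        calc (2 : ℝ) ^ (c + 1 + 1) = 1 * 2 ^ (c + 1 + 1) := by ring
          _ ≤ _ := mul_le_mul_of_nonneg_right h3 (by positivity)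
      have h2 : (2 : ℝ) ^ (c + 1 + 1) < C := h1.trans_lt hc1
      exact_mod_cast h2.le
  refine ⟨c, hc1, h2c, ?_⟩
  rw [not_lt] at hc2
  have h3 : ((c + 1 : ℕ) : ℝ) * Real.log 2 ≤ Real.log (2 * (C : ℝ)) := by
    rw [← Real.log_pow]
    apply Real.log_le_log (by positivity)
    rw [pow_succ]
    have : ((2 : ℝ) ^ c) ≤ C := by exact_mod_cast h2c
    linarith
  calc (C : ℝ) ≤ ((c + 1 : ℕ) : ℝ) * Real.log 2 * 2 ^ (c + 1) := hc2
    _ ≤ Real.log (2 * (C : ℝ)) * 2 ^ (c + 1) := mul_le_mul_of_nonneg_right h3 (by positivity)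
    _ = _ := by rw [pow_succ]; ring

theorem pairsRich_mono {n : ℕ} {V : Submodule (ZMod 2) (W n)} {ω ω' N : ℕ} (h : ω ≤ ω')
    (hV : PairsRich V ω' N) : PairsRich V ω N := by
  intro S hS
  obtain ⟨i, hi, j, hj, hij, hr⟩ := hV S hS
  exact ⟨i, hi, j, hj, hij, h.trans hr⟩

open Filter Topology in
theorem lim_t (r N : ℕ) (K : ℝ) (hN : 1 ≤ N) :
    Tendsto (fun t : ℕ => (1 + (r : ℝ) / ((N : ℝ) * 2 ^ t)) ^ r * K) atTop (𝓝 K) := by
  have h1 : Tendsto (fun t : ℕ => (N : ℝ) * 2 ^ t) atTop atTop := by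
    apply Tendsto.const_mul_atTop (by exact_mod_cast hN)
    exact tendsto_pow_atTop_atTop_of_one_lt (by norm_num)
  have h2 : Tendsto (fun t : ℕ => (r : ℝ) / ((N : ℝ) * 2 ^ t)) atTop (𝓝 0) :=
    h1.const_div_atTop _
  have h3 := ((h2.const_add 1).pow r).mul_const K
  simpa using h3

open Filter Topology in
theorem aAD (hBU : StBU) : StAD := by
  intro r N ε hr hrN hε ω n1
  have hN : 1 ≤ N := by omega
  have hNR : (0 : ℝ) < N := by exact_mod_cast hN
  have hC : 1 ≤ N.choose r := Nat.choose_pos hrN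
  obtain ⟨c, hc1, hc2, hc3⟩ := choose_c (N.choose r) hC
  have hcN : c ≤ N := by
    have := hc2.trans (Nat.choose_le_two_pow N r)
    exact (Nat.pow_le_pow_iff_right (by norm_num)).mp this
  have ev1 : ∀ᶠ t : ℕ in atTop, (1 + (r : ℝ) / ((N : ℝ) * 2 ^ t)) ^ r *
      (2 * Real.log (2 * (N.choose r : ℝ))) < 2 * Real.log (2 * (N.choose r : ℝ)) + ε :=
    (lim_t r N _ hN).eventually_lt_const (by linarith)
  obtain ⟨t, ht, ht0⟩ := (ev1.and (eventually_ge_atTop (N + ω + n1 + 1))).exists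
  have hlt : ∀ m : ℕ, m ≤ 2 ^ m := fun m => Nat.lt_two_pow_self.le
  have ht1 : 1 ≤ t := by omega
  have hNt : N ≤ 2 ^ t := (by omega : N ≤ t).trans (hlt t)
  have hωt : ω ≤ 2 ^ (t - 1) := (by omega : ω ≤ t - 1).trans (hlt _)
  obtain ⟨V, hV1, hV2, hV3⟩ := hBU r N c t hr hcN hc1 hNt ht1
  refine ⟨N * 2 ^ t, ?_, V, hV1, pairsRich_mono hωt hV3, ?_⟩
  · calc n1 ≤ t := by omega
      _ ≤ 2 ^ t := hlt t
      _ = 1 * 2 ^ t := (one_mul _).symm
      _ ≤ N * 2 ^ t := Nat.mul_le_mul_right _ hN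
  · refine le_trans ?_ ht.le
    set b : ℕ := (univ.filter (fun x : W (N * 2 ^ t) => hammingNorm x ≤ r)).card with hb
    set π : ℝ := ∏ j ∈ range r, (1 - (j : ℝ) / N) with hπ
    have hπ0 : 0 ≤ π := prod_nonneg' r N hrN
    have hπ1 : π * (N : ℝ) ^ r = (r.factorial : ℝ) * (N.choose r : ℝ) := prod_eq r N hr hrN
    have hbl : (b : ℝ) ≤ ((N : ℝ) * 2 ^ t + r) ^ r / (r.factorial : ℝ) := by
      have h1 : (b : ℝ) ≤ ((N * 2 ^ t + r).choose r : ℝ) := by
        exact_mod_cast Pool.Agent.Helper26.CovL.card_ball_le (N * 2 ^ t) r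
      refine h1.trans ((Nat.choose_le_pow_div r (N * 2 ^ t + r)).trans (le_of_eq ?_))
      push_cast
      rfl
    have hVR : (Nat.card V : ℝ) / 2 ^ (N * 2 ^ t) = 1 / 2 ^ (c + t * r) := by
      have h1 : (Nat.card V : ℝ) * 2 ^ (c + t * r) = 2 ^ (N * 2 ^ t) := by exact_mod_cast hV2
      rw [div_eq_div_iff (by positivity) (by positivity), one_mul]
      exact h1
    have hd : Pool.Agent.Helper87.TB.dens (N * 2 ^ t) r V = (b : ℝ) / 2 ^ (c + t * r) := by
      unfold Pool.Agent.Helper87.TB.dens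
      rw [← hb]
      calc (Nat.card V : ℝ) * (b : ℝ) / 2 ^ (N * 2 ^ t)
          = (b : ℝ) * ((Nat.card V : ℝ) / 2 ^ (N * 2 ^ t)) := by ring
        _ = _ := by rw [hVR]; ring
    rw [hd]
    have hfac : (0 : ℝ) < r.factorial := by exact_mod_cast r.factorial_pos
    have h2t : (0 : ℝ) < 2 ^ t := by positivity
    calc (b : ℝ) / 2 ^ (c + t * r) * π
        ≤ (((N : ℝ) * 2 ^ t + r) ^ r / (r.factorial : ℝ)) / 2 ^ (c + t * r) * π := by
          gcongr
      _ = (1 + (r : ℝ) / ((N : ℝ) * 2 ^ t)) ^ r * ((N.choose r : ℝ) / 2 ^ c) := by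
          have e1 : (N : ℝ) * 2 ^ t + r = (1 + (r : ℝ) / ((N : ℝ) * 2 ^ t)) * ((N : ℝ) * 2 ^ t) := by
            field_simp
          rw [e1, mul_pow, mul_pow, pow_add, pow_mul]
          have e2 : (N.choose r : ℝ) = π * (N : ℝ) ^ r / (r.factorial : ℝ) := by
            rw [hπ1]
            field_simp
          rw [e2]
          field_simp
      _ ≤ (1 + (r : ℝ) / ((N : ℝ) * 2 ^ t)) ^ r * (2 * Real.log (2 * (N.choose r : ℝ))) := by
          apply mul_le_mul_of_nonneg_left _ (by positivity)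
          rw [div_le_iff₀ (by positivity)]
          exact hc3

end Pool.Agent.Helper24.TB

end
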